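import Mathlib
import Pool.Agent.D0H44.EC.Stm
import Pool.Agent.D0H51.FR.CH

/-! Project EC, package CQ (helper28): the class `a` modulo `q`, twisted with the nonprincipal
characters modulo the prime `r`, in terms of the primitive characters of conductor not dividing
`q`. -/

set_option autoImplicit false

open Finset MeasureTheory

namespace Pool.Agent.D0H28.EC.CQ

open Pool.Agent.H398R2.BV Pool.Agent.H410R2
open Pool.Agent.D0H44.FR Pool.Agent.D0H44.EC
open Pool.Agent.D0H51.FR.CH (ncs ncs_bound SS_changeLevel)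

open Classical in
/-- re-indexing of all the characters by primitive characters -/
lemma sum_char_prim (m : ℕ) [NeZero m] (v : DirichletCharacter ℂ m → ℝ)
    (W : (f : ℕ) → DirichletCharacter ℂ f → ℝ)
    (hW : ∀ f (h : f ∣ m) (ψ : DirichletCharacter ℂ f), ψ ∈ Prim f →
      v (DirichletCharacter.changeLevel h ψ) = W f ψ) :
    ∑ χ : DirichletCharacter ℂ m, v χ = ∑ f ∈ m.divisors, ∑ ψ ∈ Prim f, W f ψ := by
  have h1 : ∀ χ ∈ (univ : Finset (DirichletCharacter ℂ m)), χ.conductor ∈ m.divisors := by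
    intro χ _
    exact Nat.mem_divisors.mpr ⟨χ.conductor_dvd_level, NeZero.ne m⟩
  rw [← sum_fiberwise_of_maps_to h1]
  apply sum_congr rfl
  intro f hf
  rw [Nat.mem_divisors] at hf
  have hfm := hf.1
  have h2 : ((univ : Finset (DirichletCharacter ℂ m)).filter (fun χ => χ.conductor = f)) =
      (Prim f).image (DirichletCharacter.changeLevel hfm) := by
    ext χ
    constructor
    · intro hχ
      rw [mem_filter] at hχ
      obtain ⟨_, hc⟩ := hχ
      subst hc
      rw [mem_image]
      exact ⟨χ.primitiveCharacter, by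
        unfold Prim
        rw [mem_filter]; exact ⟨mem_univ _, χ.primitiveCharacter_isPrimitive⟩,
        χ.changeLevel_primitiveCharacter⟩
    · intro hχ
      rw [mem_image] at hχ
      obtain ⟨ψ, hψ, rfl⟩ := hχ
      unfold Prim at hψ
      rw [mem_filter] at hψ
      have hc : (DirichletCharacter.changeLevel hfm ψ).conductor = f := by
        rw [DirichletCharacter.conductor_changeLevel]
        exact hψ.2
      rw [mem_filter]
      exact ⟨mem_univ _, hc⟩
  rw [h2, sum_image fun x _ y _ hxy => DirichletCharacter.changeLevel_injective hfm hxy]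
  exact sum_congr rfl fun ψ hψ => hW f hfm ψ hψ

/-- the product of a character modulo `q` and a character modulo `r` -/
noncomputable def pr (q r : ℕ) (α : DirichletCharacter ℂ q) (β : DirichletCharacter ℂ r) :
    DirichletCharacter ℂ (q * r) :=
  DirichletCharacter.changeLevel (dvd_mul_right q r) α *
    DirichletCharacter.changeLevel (dvd_mul_left r q) β

lemma pr_apply (q r n : ℕ) (α : DirichletCharacter ℂ q) (β : DirichletCharacter ℂ r) :
    pr q r α β (n : ZMod (q * r)) = α (n : ZMod q) * β (n : ZMod r) := by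
  unfold pr
  rw [MulChar.mul_apply]
  by_cases hn : n.Coprime (q * r)
  · have h1 := DirichletCharacter.changeLevel_eq_cast_of_dvd' α (dvd_mul_right q r)
      (a := (n : ℤ)) (by exact_mod_cast Nat.isCoprime_iff_coprime.mpr hn)
    have h2 := DirichletCharacter.changeLevel_eq_cast_of_dvd' β (dvd_mul_left r q)
      (a := (n : ℤ)) (by exact_mod_cast Nat.isCoprime_iff_coprime.mpr hn)
    push_cast at h1 h2
    rw [h1, h2]
  · rw [MulChar.map_nonunit _ (fun hu => hn ((ZMod.isUnit_iff_coprime n _).mp hu)), zero_mul]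
    by_cases h3 : n.Coprime q
    · have h4 : ¬ n.Coprime r := fun h4 => hn (Nat.Coprime.mul_right h3 h4)
      rw [MulChar.map_nonunit β (fun hu => h4 ((ZMod.isUnit_iff_coprime n _).mp hu)), mul_zero]
    · rw [MulChar.map_nonunit α (fun hu => h3 ((ZMod.isUnit_iff_coprime n _).mp hu)), zero_mul]

/-- a character modulo `q r` induced from `q` and from `r` is trivial -/
lemma both (q r : ℕ) (hq : 1 ≤ q) (hr : 1 ≤ r) (h : q.Coprime r)
    (α : DirichletCharacter ℂ q) (β : DirichletCharacter ℂ r)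
    (hab : DirichletCharacter.changeLevel (dvd_mul_right q r) α =
      DirichletCharacter.changeLevel (dvd_mul_left r q) β) : α = 1 ∧ β = 1 := by
  have : NeZero q := ⟨by omega⟩
  have : NeZero r := ⟨by omega⟩
  have : NeZero (q * r) := ⟨by positivity⟩
  have h1 := congrArg DirichletCharacter.conductor hab
  rw [DirichletCharacter.conductor_changeLevel, DirichletCharacter.conductor_changeLevel] at h1
  have h2 : α.conductor ∣ q := α.conductor_dvd_level
  have h3 : β.conductor ∣ r := β.conductor_dvd_level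
  have h4 : α.conductor = 1 := Nat.eq_one_of_dvd_coprimes h h2 (h1 ▸ h3)
  exact ⟨DirichletCharacter.eq_one_iff_conductor_eq_one.mpr h4,
    DirichletCharacter.eq_one_iff_conductor_eq_one.mpr (h1 ▸ h4)⟩

lemma pr_inj (q r : ℕ) (hq : 1 ≤ q) (hr : 1 ≤ r) (h : q.Coprime r)
    (α α' : DirichletCharacter ℂ q) (β β' : DirichletCharacter ℂ r)
    (hab : pr q r α β = pr q r α' β') : α = α' ∧ β = β' := by
  unfold pr at hab
  have h1 : DirichletCharacter.changeLevel (dvd_mul_right q r) (α * α'⁻¹) =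
      DirichletCharacter.changeLevel (dvd_mul_left r q) (β' * β⁻¹) := by
    rw [map_mul, map_mul, map_inv, map_inv]
    rw [mul_inv_eq_iff_eq_mul, mul_assoc, mul_comm (_)⁻¹, ← mul_assoc, eq_mul_inv_iff_mul_eq, hab]
    exact mul_comm _ _
  obtain ⟨h2, h3⟩ := both q r hq hr h _ _ h1
  exact ⟨mul_inv_eq_one.mp h2, (mul_inv_eq_one.mp h3).symm⟩

lemma pr_cond (q r : ℕ) (hq : 1 ≤ q) (hr : 1 ≤ r) (h : q.Coprime r)
    (α : DirichletCharacter ℂ q) (β : DirichletCharacter ℂ r) (hβ : β ≠ 1) :
    ¬ (pr q r α β).conductor ∣ q := by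
  intro hc
  have : NeZero q := ⟨by omega⟩
  have : NeZero r := ⟨by omega⟩
  have : NeZero (q * r) := ⟨by positivity⟩
  have h1 : (pr q r α β).FactorsThrough q :=
    (DirichletCharacter.mem_conductorSet_iff_conductor_dvd _ (dvd_mul_right q r)).mpr hc
  have h2 := h1.eq_changeLevel
  have h3 : DirichletCharacter.changeLevel (dvd_mul_right q r) (h1.χ₀ * α⁻¹) =
      DirichletCharacter.changeLevel (dvd_mul_left r q) β := by
    rw [map_mul, map_inv, ← h2]
    unfold pr
    rw [mul_inv_eq_iff_eq_mul]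
    exact mul_comm _ _
  exact hβ (both q r hq hr h _ _ h3).2

theorem t_CQ : S_W → S_CQ := by
  classical
  intro hW x q a M r hx hq hM hr hrq ha
  have hw : ∀ s, 0 ≤ w s ∧ w s ≤ 1 := hW.2.2.2.1
  have hlog : 0 ≤ Real.log M := Real.log_natCast_nonneg M
  have hr1 : 1 < r := hr.one_lt
  have hq0 : NeZero q := ⟨by omega⟩
  have hr0 : NeZero r := ⟨by omega⟩
  have hqr1 : 1 ≤ q * r := Nat.mul_pos (by omega) (by omega)
  have hqr0 : NeZero (q * r) := ⟨by omega⟩
  have hcop : q.Coprime r := ((Nat.Prime.coprime_iff_not_dvd hr).mpr hrq).symm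
  set o : ℝ → ℝ := fun y => w (y / x) with ho
  have hoo : ∀ y, 0 ≤ o y ∧ o y ≤ 1 := fun y => hw (y / x)
  set E : ℝ := ((q * r).primeFactors.card : ℝ) * Real.log M with hE
  have hE0 : 0 ≤ E := by positivity
  have hau : IsUnit (a : ZMod q) := (ZMod.isUnit_iff_coprime a q).mpr ha
  have hφ : (0:ℝ) < Nat.totient q := by exact_mod_cast Nat.totient_pos.mpr (by omega)
  have hφc : (Nat.totient q : ℂ) ≠ 0 := by
    have : (Nat.totient q) ≠ 0 := (Nat.totient_pos.mpr (by omega)).ne'
    exact_mod_cast this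
  -- the class by characters
  have key : ∀ β : DirichletCharacter ℂ r,
      ∑ n ∈ (Icc 1 M).filter (fun n => n ≡ a [MOD q]),
        ((ArithmeticFunction.vonMangoldt n : ℝ) : ℂ) * (((w ((n : ℝ) / x) : ℝ) : ℂ) *
          β (n : ZMod r)) =
      (1 / (Nat.totient q : ℂ)) * ∑ α : DirichletCharacter ℂ q,
        α ((a : ZMod q)⁻¹) * Pool.Agent.D0H44.FR.SS M o (q * r) (pr q r α β) := by
    intro β
    unfold Pool.Agent.D0H44.FR.SS
    have h1 : ∑ α : DirichletCharacter ℂ q, α ((a : ZMod q)⁻¹) *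
        ∑ n ∈ Icc 1 M, ((ArithmeticFunction.vonMangoldt n : ℝ) : ℂ) *
          (pr q r α β) (n : ZMod (q * r)) * ((o n : ℝ) : ℂ) =
        ∑ n ∈ Icc 1 M, (((ArithmeticFunction.vonMangoldt n : ℝ) : ℂ) * (((w ((n : ℝ) / x) : ℝ) : ℂ) *
          β (n : ZMod r))) *
          ∑ α : DirichletCharacter ℂ q, α ((a : ZMod q)⁻¹) * α (n : ZMod q) := by
      simp_rw [mul_sum]
      rw [sum_comm]
      apply sum_congr rfl
      intro n _
      apply sum_congr rfl
      intro α _
      rw [pr_apply, ho]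
      ring
    rw [h1, sum_filter, mul_sum]
    apply sum_congr rfl
    intro n _
    rw [DirichletCharacter.sum_char_inv_mul_char_eq ℂ hau (n : ZMod q)]
    have h5 : (n ≡ a [MOD q]) ↔ ((a : ZMod q) = (n : ZMod q)) := by
      rw [← ZMod.natCast_eq_natCast_iff, eq_comm]
    by_cases h6 : n ≡ a [MOD q]
    · rw [if_pos h6, if_pos (h5.mp h6)]
      field_simp
    · rw [if_neg h6, if_neg (fun h => h6 (h5.mpr h))]
      simp
  have key2 : ∀ β : DirichletCharacter ℂ r,
      ‖∑ n ∈ (Icc 1 M).filter (fun n => n ≡ a [MOD q]),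
        ((ArithmeticFunction.vonMangoldt n : ℝ) : ℂ) * (((w ((n : ℝ) / x) : ℝ) : ℂ) *
          β (n : ZMod r))‖ ≤
      1 / (Nat.totient q : ℝ) * ∑ α : DirichletCharacter ℂ q, ‖Pool.Agent.D0H44.FR.SS M o (q * r) (pr q r α β)‖ := by
    intro β
    rw [key β, norm_mul, norm_div, norm_one, Complex.norm_natCast]
    apply mul_le_mul_of_nonneg_left _ (by positivity)
    refine (norm_sum_le _ _).trans (sum_le_sum fun α _ => ?_)
    rw [norm_mul]
    calc _ ≤ 1 * ‖Pool.Agent.D0H44.FR.SS M o (q * r) (pr q r α β)‖ :=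
          mul_le_mul_of_nonneg_right (α.norm_le_one _) (norm_nonneg _)
      _ = _ := one_mul _
  have h1 : CR x q a M r ≤ 1 / (Nat.totient q : ℝ) *
      ∑ β ∈ (univ : Finset (DirichletCharacter ℂ r)).erase 1,
        ∑ α : DirichletCharacter ℂ q, ‖Pool.Agent.D0H44.FR.SS M o (q * r) (pr q r α β)‖ := by
    unfold CR
    rw [mul_sum]
    refine (le_of_eq (sum_congr ?_ fun _ _ => rfl)).trans (sum_le_sum fun β _ => key2 β)
    ext β
    simp only [mem_erase, mem_univ]
  -- the products are characters with conductor not dividing `q`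
  have h2 : ∑ β ∈ (univ : Finset (DirichletCharacter ℂ r)).erase 1,
        ∑ α : DirichletCharacter ℂ q, ‖Pool.Agent.D0H44.FR.SS M o (q * r) (pr q r α β)‖ ≤
      ∑ Ψ ∈ (univ : Finset (DirichletCharacter ℂ (q * r))).filter (fun Ψ => ¬ Ψ.conductor ∣ q),
        ‖Pool.Agent.D0H44.FR.SS M o (q * r) Ψ‖ := by
    rw [← sum_product']
    have e1 : ∑ p ∈ ((univ : Finset (DirichletCharacter ℂ r)).erase 1) ×ˢ
        (univ : Finset (DirichletCharacter ℂ q)), ‖Pool.Agent.D0H44.FR.SS M o (q * r) (pr q r p.2 p.1)‖ =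
        ∑ Ψ ∈ (((univ : Finset (DirichletCharacter ℂ r)).erase 1) ×ˢ
        (univ : Finset (DirichletCharacter ℂ q))).image (fun p => pr q r p.2 p.1),
          ‖Pool.Agent.D0H44.FR.SS M o (q * r) Ψ‖ := by
      rw [sum_image]
      intro p _ p' _ hpp
      obtain ⟨e2, e3⟩ := pr_inj q r (by omega) (by omega) hcop _ _ _ _ hpp
      exact Prod.ext e3 e2
    rw [e1]
    apply sum_le_sum_of_subset_of_nonneg
    · intro Ψ hΨ
      rw [mem_image] at hΨ
      obtain ⟨p, hp, rfl⟩ := hΨ
      rw [mem_product, mem_erase] at hp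
      rw [mem_filter]
      exact ⟨mem_univ _, pr_cond q r (by omega) (by omega) hcop _ _ hp.1.1⟩
    · intro Ψ _ _
      exact norm_nonneg _
  -- primitive characters
  have h3 : ∑ Ψ ∈ (univ : Finset (DirichletCharacter ℂ (q * r))).filter
        (fun Ψ => ¬ Ψ.conductor ∣ q), ‖Pool.Agent.D0H44.FR.SS M o (q * r) Ψ‖ =
      ∑ f ∈ (q * r).divisors.filter (fun f => ¬ f ∣ q), ∑ ψ ∈ Prim f,
        ‖Pool.Agent.D0H44.FR.SS M o f ψ - ncs M (q * r) o f ψ‖ := by
    rw [sum_filter]
    rw [sum_char_prim (q * r) (fun Ψ => if ¬ Ψ.conductor ∣ q then ‖Pool.Agent.D0H44.FR.SS M o (q * r) Ψ‖ else 0)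
      (fun f ψ => if ¬ f ∣ q then ‖Pool.Agent.D0H44.FR.SS M o f ψ - ncs M (q * r) o f ψ‖ else 0)]
    · rw [sum_filter]
      apply sum_congr rfl
      intro f _
      by_cases hf : f ∣ q
      · simp [hf]
      · simp [hf]
    · intro f h ψ hψ
      have hc : (DirichletCharacter.changeLevel h ψ).conductor = f := by
        rw [DirichletCharacter.conductor_changeLevel]
        unfold Prim at hψ
        rw [mem_filter] at hψ
        exact hψ.2
      simp only [hc]
      rw [SS_changeLevel]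
  have h11 := sum_char_prim (q * r) (fun _ => 1) (fun _ _ => 1) (fun _ _ _ _ => rfl)
  have h12 : ∑ f ∈ (q * r).divisors, ((Prim f).card : ℝ) = Nat.totient (q * r) := by
    have h4 := DirichletCharacter.card_eq_totient_of_hasEnoughRootsOfUnity ℂ (q * r)
    rw [← h4, Nat.card_eq_fintype_card]
    rw [sum_const, nsmul_eq_mul, mul_one, card_univ] at h11
    rw [h11]
    apply sum_congr rfl
    intro f _
    rw [sum_const, nsmul_eq_mul, mul_one]
  have h13 : (Nat.totient (q * r) : ℝ) ≤ Nat.totient q * r := by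
    rw [Nat.totient_mul hcop, Nat.cast_mul]
    apply mul_le_mul_of_nonneg_left _ hφ.le
    exact_mod_cast Nat.totient_le r
  have h4 : ∑ f ∈ (q * r).divisors.filter (fun f => ¬ f ∣ q), ∑ ψ ∈ Prim f,
        ‖Pool.Agent.D0H44.FR.SS M o f ψ - ncs M (q * r) o f ψ‖ ≤
      ∑ f ∈ (q * r).divisors.filter (fun f => ¬ f ∣ q), ∑ ψ ∈ Prim f, ‖Pool.Agent.D0H44.FR.SS M o f ψ‖ +
        Nat.totient q * r * E := by
    calc _ ≤ ∑ f ∈ (q * r).divisors.filter (fun f => ¬ f ∣ q), ∑ ψ ∈ Prim f,
          (‖Pool.Agent.D0H44.FR.SS M o f ψ‖ + E) := by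
          refine sum_le_sum fun f _ => sum_le_sum fun ψ _ => ?_
          exact (norm_sub_le _ _).trans (by
            have := ncs_bound M (q * r) f o hqr1 hoo ψ
            linarith)
      _ = ∑ f ∈ (q * r).divisors.filter (fun f => ¬ f ∣ q), ∑ ψ ∈ Prim f, ‖Pool.Agent.D0H44.FR.SS M o f ψ‖ +
          (∑ f ∈ (q * r).divisors.filter (fun f => ¬ f ∣ q), ((Prim f).card : ℝ)) * E := by
          rw [sum_mul, ← sum_add_distrib]
          apply sum_congr rfl
          intro f _
          rw [sum_add_distrib, sum_const, nsmul_eq_mul]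
      _ ≤ _ := by
          have e1 : ∑ f ∈ (q * r).divisors.filter (fun f => ¬ f ∣ q), ((Prim f).card : ℝ) ≤
              ∑ f ∈ (q * r).divisors, ((Prim f).card : ℝ) :=
            sum_le_sum_of_subset_of_nonneg (filter_subset _ _) (fun _ _ _ => by positivity)
          have e2 := mul_le_mul_of_nonneg_right ((e1.trans_eq h12).trans h13) hE0
          linarith
  have h5 := (h2.trans_eq h3).trans h4
  calc CR x q a M r ≤ 1 / (Nat.totient q : ℝ) *
      (∑ f ∈ (q * r).divisors.filter (fun f => ¬ f ∣ q), ∑ ψ ∈ Prim f, ‖Pool.Agent.D0H44.FR.SS M o f ψ‖ +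
        Nat.totient q * r * E) := h1.trans (mul_le_mul_of_nonneg_left h5 (by positivity))
    _ = _ := by
        rw [mul_add]
        congr 1
        field_simp

end Pool.Agent.D0H28.EC.CQ
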